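import Mathlib

/-!
The random graph process and the property `A_k`.
-/

set_option autoImplicit false

namespace Pool.Agent.MP_1376f1_pr

/-- the edges of the complete graph on `Fin n` -/
abbrev Edge (n : ℕ) : Type := {e : Sym2 (Fin n) // ¬ e.IsDiag}

/-- an ordering of the edges of the complete graph -/
abbrev Order (n : ℕ) : Type := Fin (n.choose 2) ≃ Edge n

/-- the graph formed by the first `m` edges -/
def proc {n : ℕ} (σ : Order n) (m : ℕ) : SimpleGraph (Fin n) :=
  SimpleGraph.fromEdgeSet {e | ∃ i : Fin (n.choose 2), i.val < m ∧ (σ i).val = e}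

/-- `k / 2` edge-disjoint Hamilton cycles and, for odd `k`, a matching with `n / 2` edges that is
edge-disjoint from them -/
def PropA {n : ℕ} (G : SimpleGraph (Fin n)) (k : ℕ) : Prop :=
  ∃ (v : Fin (k / 2) → Fin n) (c : ∀ i, G.Walk (v i) (v i)) (M : G.Subgraph),
    (∀ i, (c i).IsHamiltonianCycle) ∧
    (∀ i j, i ≠ j → ∀ e ∈ (c i).edges, e ∉ (c j).edges) ∧
    (Odd k → M.IsMatching ∧ M.edgeSet.ncard = n / 2 ∧ ∀ i, ∀ e ∈ (c i).edges, e ∉ M.edgeSet)

/-- the hitting time of minimum degree at least `k` -/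
noncomputable def mDeg {n : ℕ} (σ : Order n) (k : ℕ) : ℕ :=
  sInf {m | ∀ v, k ≤ ((proc σ m).neighborSet v).ncard}

/-- the first time when all degrees are at least `k - 1` and at most one degree is below `k` -/
noncomputable def mNear {n : ℕ} (σ : Order n) (k : ℕ) : ℕ :=
  sInf {m | (∀ v, k - 1 ≤ ((proc σ m).neighborSet v).ncard) ∧
    {v | ((proc σ m).neighborSet v).ncard < k}.ncard ≤ 1}

/-- the hitting time of the property `A_k` -/
noncomputable def mA {n : ℕ} (σ : Order n) (k : ℕ) : ℕ := sInf {m | PropA (proc σ m) k}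

end Pool.Agent.MP_1376f1_pr
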